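import Pool.Agent.H22.Sym3

set_option autoImplicit false

namespace Pool.Agent.Results.MP_84aa88_gt.Counter

open Pool.Agent.H22.Sym

theorem result : ∃ S : Set (En 2) → Set (En 2),
    (∀ K, IsCC K → IsCC (S K) ∧ -S K = S K) ∧
    (∀ K L, IsCC K → IsCC L → K ⊆ L → S K ⊆ S L) ∧
    (∀ K, IsCC K → -K = K → S K = K) ∧
    (∀ K, IsCC K → meanWidth (S K) = meanWidth K) ∧
    ∃ a b : En 2, a ≠ b ∧ ∀ p q : En 2, S (segment ℝ a b) ≠ segment ℝ p q := by
  refine ⟨D, fun K hK => ⟨D_cc hK, D_neg_eq K⟩, fun K L hK hL h => D_mono hK.1 hK.2.2 hL.1 h,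
    fun K hK hs => D_fix hK hs, fun K hK => D_mw hK,
    EuclideanSpace.single 0 1, EuclideanSpace.single 0 1 + EuclideanSpace.single 1 1, ?_, ?_⟩
  · intro h
    have := congrArg (fun z : En 2 => z 1) h
    simp at this
  · exact not_segment (by simp) (by simp) (by simp [EuclideanSpace.inner_single_left])

end Pool.Agent.Results.MP_84aa88_gt.Counter
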